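import Mathlib
import Pool.Agent.H65R3.Forc

/-!
# Sentences about automorphisms of quotients of power sets

Throughout, `P` is a forcing notion, `X` and `Y` are sets of the ground model, and an element `p`
of `P` belongs to a set of conditions defined below iff it forces the sentence described in the
comment.
-/

namespace Pool.Agent.W917.Flip

open Cardinal Pool.Agent.H65R3.Forc

/-- The set of the ordinals below `κ`. -/
abbrev K (κ : Cardinal.{0}) : Type := κ.ord.ToType

/-- A name for a subset of `X`; it names the set of those `x` for which the generic filter meets
the set of conditions attached to `x`. -/
abbrev SetName (P X : Type) : Type := X → Set P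

/-- A name for a set of pairs of subsets of `X`: with the pair of the names `A` and `B` it
associates a set of conditions, and the pair of the sets named by `A` and `B` belongs to the named
relation if the generic filter meets that set. -/
abbrev RelName (P X : Type) : Type := SetName P X → SetName P X → Set P

section

variable {P : Type} [Preorder P] {X : Type}

/-- `x` belongs to the set named by `A`. -/
def Mem (A : SetName P X) (x : X) : Set P := meets (A x)

/-- `A` and `B` name the same set. -/
def Same (A B : SetName P X) : Set P := fall fun x => fiff (Mem A x) (Mem B x)

/-- The pair of the sets named by `A` and `B` belongs to the relation named by `T`: this pair is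
the pair of the sets named by some `A'` and `B'` such that the generic filter meets
`T A' B'`. -/
def Rel (T : RelName P X) (A B : SetName P X) : Set P :=
  fex fun A' : SetName P X => fex fun B' : SetName P X =>
    fand (meets (T A' B')) (fand (Same A A') (Same B B'))

/-- The set of all `x` in `X` satisfying `φ x` has an injection into `Y`: there is a relation `R`
between `X` and `Y` which relates every `x` satisfying `φ x` to some `y`, and which relates no two
different elements of `X` to the same `y`. -/
def InjInto (Y : Type) (φ : X → Set P) : Set P :=
  fex fun R : X → Y → Set P =>
    fand
      (fall fun x => fimp (φ x) (fex fun y => meets (R x y)))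
      (fall fun x => fall fun x' => fall fun y =>
        fimp (fand (meets (R x y)) (meets (R x' y))) (fground (x = x')))

/-- The set of all `x` in `X` satisfying `φ x` is finite. -/
def FinSet (φ : X → Set P) : Set P := fex fun n : ℕ => InjInto (Fin n) φ

/-- The set of all `x` in `X` satisfying `φ x` is countable. -/
def CtblSet (φ : X → Set P) : Set P := InjInto ℕ φ

/-- The ordinal `κ` of the ground model is a cardinal of the extension: for no `a < κ` is there an
injection of `κ` into `a`. -/
def StaysCardinal (P : Type) [Preorder P] (κ : Cardinal.{0}) : Set P :=
  fall fun a : K κ => fnot (InjInto {y : K κ // y < a} fun _ : K κ => fground True)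

/-- For a notion `Sm` of smallness of subsets of `X`: the set of all `x` satisfying `φ x` is
included in the set of all `x` satisfying `ψ x` up to a small set. -/
def AlmostSub (Sm : (X → Set P) → Set P) (φ ψ : X → Set P) : Set P :=
  Sm fun x => fand (φ x) (fnot (ψ x))

/-- The relation named by `T` is the graph of an automorphism of the quotient of the power set of
`X` by the ideal of the small sets, lifted to the power set: every subset `A` of `X` is related to
some subset `B`, to every subset `B` some `A` is related, and if `A` is related to `B` and `A'` to
`B'` then `A` is almost included in `A'` iff `B` is almost included in `B'`. -/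
def IsAut (Sm : (X → Set P) → Set P) (T : RelName P X) : Set P :=
  fand
    (fand (fall fun A : SetName P X => fex fun B : SetName P X => Rel T A B)
      (fall fun B : SetName P X => fex fun A : SetName P X => Rel T A B))
    (fall fun A : SetName P X => fall fun A' : SetName P X => fall fun B : SetName P X =>
      fall fun B' : SetName P X => fimp (fand (Rel T A B) (Rel T A' B'))
        (fiff (AlmostSub Sm (Mem A) (Mem A')) (AlmostSub Sm (Mem B) (Mem B'))))

/-- The relation named by `E` is a function whose domain includes the set named by `D`. -/
def IsFunOn (D : SetName P X) (E : X → X → Set P) : Set P :=
  fand (fall fun x => fimp (Mem D x) (fex fun y => meets (E x y)))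
    (fall fun x => fall fun y => fall fun y' =>
      fimp (fand (meets (E x y)) (meets (E x y'))) (fground (y = y')))

/-- `y` belongs to the image of the set named by `A` under the function named by `E`. -/
def Img (E : X → X → Set P) (A : SetName P X) (y : X) : Set P :=
  fex fun x => fand (meets (E x y)) (Mem A x)

/-- `x` belongs to the preimage of the set named by `A` under the function named by `E`. -/
def Pre (E : X → X → Set P) (A : SetName P X) (x : X) : Set P :=
  fex fun y => fand (meets (E x y)) (Mem A y)

/-- The automorphism of the quotient of the power set of `X` by the ideal of the finite sets given
by the relation named by `T` is trivial on the set named by `D`: there is a function `e` from `D`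
to `X` such that whenever `B` is a subset of `D` and `C` is related to `B`, then `C` and the image
of `B` under `e` differ only by a finite set. -/
def IsTrivialOn (T : RelName P X) (D : SetName P X) : Set P :=
  fex fun E : X → X → Set P =>
    fand (IsFunOn D E)
      (fall fun B : SetName P X => fall fun C : SetName P X =>
        fimp (fand (fall fun x => fimp (Mem B x) (Mem D x)) (Rel T B C))
          (fand (AlmostSub FinSet (Mem C) (Img E B)) (AlmostSub FinSet (Img E B) (Mem C))))

/-- There is an automorphism of the quotient of the power set of `X` by the ideal of the finite
sets which is not trivial on any set with countable complement. -/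
def HasAutFin (P : Type) [Preorder P] (X : Type) : Set P :=
  fex fun T : RelName P X => fand (IsAut FinSet T)
    (fall fun D : SetName P X => fimp (CtblSet fun x => fnot (Mem D x)) (fnot (IsTrivialOn T D)))

/-- The automorphism of the quotient of the power set of `X` by the ideal of the small sets given
by the relation named by `T` is trivial: there is a function `e` from `X` to `X` such that
whenever `B` is related to `A`, then `B` and the preimage of `A` under `e` differ only by a small
set. -/
def IsTrivial (Sm : (X → Set P) → Set P) (T : RelName P X) : Set P :=
  fex fun E : X → X → Set P =>
    fand (IsFunOn (fun _ => Set.univ) E)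
      (fall fun A : SetName P X => fall fun B : SetName P X => fimp (Rel T A B)
        (fand (AlmostSub Sm (Mem B) (Pre E A)) (AlmostSub Sm (Pre E A) (Mem B))))

/-- There is a nontrivial automorphism of the quotient of the power set of `X` by the ideal of the
small sets. -/
def HasNontrivialAut (X : Type) (Sm : (X → Set P) → Set P) : Set P :=
  fex fun T : RelName P X => fand (IsAut Sm T) (fnot (IsTrivial Sm T))

end

end Pool.Agent.W917.Flip
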