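import Mathlib
import Pool.Agent.H631R2.Cohen
import Pool.Agent.W917.Flip.Lang

/-!
# Flipping one bit of a generic sequence of bits
-/

namespace Pool.Agent.W917.Flip

open Cardinal Set Pool.Agent.H65R3.Forc
open Pool.Agent.H631R2 (Cond)

variable {X : Type}

/-! ### flipping -/

open Classical in
/-- flip the bit with index `x` -/
noncomputable def fpt (x : X) (z : X × Bool) : X × Bool := if z.1 = x then (z.1, !z.2) else z

theorem fpt_fst (x : X) (z : X × Bool) : (fpt x z).1 = z.1 := by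
  unfold fpt; split_ifs <;> rfl

theorem fpt_fpt (x : X) (z : X × Bool) : fpt x (fpt x z) = z := by
  unfold fpt
  by_cases h : z.1 = x
  · simp [h]
    exact Prod.ext h.symm rfl
  · simp [h]

theorem fpt_of_ne {x : X} {z : X × Bool} (h : z.1 ≠ x) : fpt x z = z := by
  unfold fpt; simp [h]

theorem fpt_self (x : X) (b : Bool) : fpt x (x, b) = (x, !b) := by
  unfold fpt; simp

theorem Cond.ext' {p q : Cond X} (h : p.s = q.s) : p = q := by
  cases p; cases q; cases h; rfl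

open Classical in
/-- flip the bit with index `x` of a condition -/
noncomputable def fl (x : X) (p : Cond X) : Cond X where
  s := p.s.image (fpt x)
  fn := by
    intro i h1 h2
    have key : ∀ b : Bool, (i, b) ∈ p.s.image (fpt x) → fpt x (i, b) ∈ p.s := by
      intro b hb
      obtain ⟨z, hz, hz'⟩ := Finset.mem_image.1 hb
      rw [← hz', fpt_fpt]; exact hz
    have h1' := key _ h1
    have h2' := key _ h2
    by_cases hi : i = x
    · subst hi
      rw [fpt_self] at h1' h2'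
      exact p.fn i h2' h1'
    · rw [fpt_of_ne hi] at h1' h2'
      exact p.fn i h1' h2'

theorem mem_fl {x : X} {p : Cond X} {z : X × Bool} : z ∈ (fl x p).s ↔ fpt x z ∈ p.s := by
  classical
  unfold fl
  simp only [Finset.mem_image]
  constructor
  · rintro ⟨w, hw, rfl⟩
    rw [fpt_fpt]; exact hw
  · intro h
    exact ⟨_, h, fpt_fpt x z⟩

theorem fl_fl (x : X) (p : Cond X) : fl x (fl x p) = p := by
  apply Cond.ext'
  ext z
  rw [mem_fl, mem_fl, fpt_fpt]

theorem fl_le {x : X} {p q : Cond X} (h : q ≤ p) : fl x q ≤ fl x p := by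
  intro z hz
  rw [mem_fl] at hz ⊢
  exact h hz

theorem fl_eq {x : X} {p : Cond X} (h : x ∉ p.dom) : fl x p = p := by
  apply Cond.ext'
  ext z
  rw [mem_fl]
  by_cases hz : z.1 = x
  · constructor
    · intro h'
      exact absurd (Cond.mem_dom.2 ⟨(fpt x z).2, by
        have : fpt x z = (x, (fpt x z).2) := Prod.ext ((fpt_fst x z).trans hz) rfl
        rw [← this]; exact h'⟩) h
    · intro h'
      exact absurd (Cond.mem_dom.2 ⟨z.2, by
        have : z = (x, z.2) := Prod.ext hz rfl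
        rw [← this]; exact h'⟩) h
  · rw [fpt_of_ne hz]

/-- flipping of sentences -/
def flS (x : X) (φ : Set (Cond X)) : Set (Cond X) := {p | fl x p ∈ φ}

theorem flS_flS (x : X) (φ : Set (Cond X)) : flS x (flS x φ) = φ := by
  ext p
  change fl x (fl x p) ∈ φ ↔ _
  rw [fl_fl]

theorem flS_fnot (x : X) (φ : Set (Cond X)) : flS x (fnot φ) = fnot (flS x φ) := by
  ext p
  constructor
  · intro h q hq hq'
    exact h _ (fl_le hq) hq'
  · intro h q hq hq'
    refine h (fl x q) ?_ ?_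
    · have := fl_le (x := x) hq
      rwa [fl_fl] at this
    · change fl x (fl x q) ∈ φ
      rw [fl_fl]; exact hq'

theorem flS_fand (x : X) (φ ψ : Set (Cond X)) : flS x (fand φ ψ) = fand (flS x φ) (flS x ψ) := rfl

theorem flS_fimp (x : X) (φ ψ : Set (Cond X)) : flS x (fimp φ ψ) = fimp (flS x φ) (flS x ψ) := by
  rw [fimp, flS_fnot, flS_fand, flS_fnot]; rfl

theorem flS_meets (x : X) (N : Set (Cond X)) : flS x (meets N) = meets (flS x N) := by
  ext p
  constructor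
  · intro h q hq
    obtain ⟨r, hr, s, hs, hrs⟩ := h _ (fl_le hq)
    refine ⟨fl x r, ?_, fl x s, ?_, fl_le hrs⟩
    · have := fl_le (x := x) hr
      rwa [fl_fl] at this
    · change fl x (fl x s) ∈ N
      rw [fl_fl]; exact hs
  · intro h q hq
    have h1 : fl x q ≤ p := by
      have := fl_le (x := x) hq
      rwa [fl_fl] at this
    obtain ⟨r, hr, s, hs, hrs⟩ := h _ h1
    refine ⟨fl x r, ?_, fl x s, hs, fl_le hrs⟩
    have := fl_le (x := x) hr
    rwa [fl_fl] at this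

/-- flipping of names -/
def flN (A : SetName (Cond X) X) : SetName (Cond X) X := fun x => flS x (A x)

theorem flN_flN (A : SetName (Cond X) X) : flN (flN A) = A := by
  funext x
  exact flS_flS x _

theorem mem_flN (A : SetName (Cond X) X) (x : X) : Mem (flN A) x = flS x (Mem A x) :=
  (flS_meets x _).symm

/-! ### Covers -/

/-- the set of all `x` satisfying `φ x` is covered by a ground model set in `I` -/
def Cov {Z X : Type} (I : Set Z → Prop) (φ : Z → Set (Cond X)) : Set (Cond X) :=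
  {p | ∀ q ≤ p, ∃ r ≤ q, ∃ S, I S ∧ ∀ x ∉ S, r ∈ fnot (φ x)}

/-- ideals -/
structure Ideal' (I : Set X → Prop) : Prop where
  mono : ∀ S T, I T → S ⊆ T → I S
  union : ∀ S T, I S → I T → I (S ∪ T)
  fin : ∀ S, S.Finite → I S

variable {I : Set X → Prop}

theorem down_Cov (φ : X → Set (Cond X)) : Down (Cov I φ) :=
  fun _ hp _ hq r hr => hp r (hr.trans hq)

theorem cov_flip (hI : Ideal' I) {φ : X → Set (Cond X)} {p : Cond X} (h : p ∈ Cov I φ) :
    p ∈ Cov I (fun x => flS x (φ x)) := by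
  intro q hq
  obtain ⟨r, hr, S, hS, hrS⟩ := h q hq
  refine ⟨r, hr, S ∪ r.dom, hI.union _ _ hS (hI.fin _ r.dom_finite), fun x hx => ?_⟩
  rw [← flS_fnot]
  change fl x r ∈ fnot (φ x)
  rw [fl_eq fun h' => hx (Or.inr h')]
  exact hrS x fun h' => hx (Or.inl h')

/-- almost inclusion -/
def AS (I : Set X → Prop) (φ ψ : X → Set (Cond X)) : Set (Cond X) :=
  Cov I fun x => fand (φ x) (fnot (ψ x))

theorem down_AS (φ ψ : X → Set (Cond X)) : Down (AS I φ ψ) := down_Cov _

theorem AS_cov (hI : Ideal' I) {φ ψ : X → Set (Cond X)} {p : Cond X} (h : p ∈ AS I φ ψ)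
    (hψ : p ∈ Cov I ψ) : p ∈ Cov I φ := by
  intro q hq
  obtain ⟨r, hr, S, hS, hrS⟩ := h q hq
  obtain ⟨r', hr', S', hS', hrS'⟩ := hψ r (hr.trans hq)
  refine ⟨r', hr'.trans hr, S ∪ S', hI.union _ _ hS hS', fun x hx s hs hsφ => ?_⟩
  have h1 : r ∈ fimp (φ x) (ψ x) := hrS x fun h' => hx (Or.inl h')
  obtain ⟨t, ht, ht'⟩ := mem_fimp.1 h1 s (hs.trans hr') hsφ
  exact hrS' x (fun h' => hx (Or.inr h')) t (ht.trans hs) ht'

theorem AS_trans (hI : Ideal' I) {φ ψ θ : X → Set (Cond X)} {p : Cond X} (h : p ∈ AS I φ ψ)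
    (h' : p ∈ AS I ψ θ) : p ∈ AS I φ θ := by
  intro q hq
  obtain ⟨r, hr, S, hS, hrS⟩ := h q hq
  obtain ⟨r', hr', S', hS', hrS'⟩ := h' r (hr.trans hq)
  refine ⟨r', hr'.trans hr, S ∪ S', hI.union _ _ hS hS', fun x hx s hs hsφ => ?_⟩
  have h1 : r ∈ fimp (φ x) (ψ x) := hrS x fun h' => hx (Or.inl h')
  have h2 : r' ∈ fimp (ψ x) (θ x) := hrS' x fun h' => hx (Or.inr h')
  obtain ⟨t, ht, ht'⟩ := mem_fimp.1 h1 s (hs.trans hr') hsφ.1
  obtain ⟨u, hu, hu'⟩ := mem_fimp.1 h2 t (ht.trans hs) ht'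
  exact hsφ.2 u (hu.trans ht) hu'

theorem AS_flip (hI : Ideal' I) {φ ψ : X → Set (Cond X)} {p : Cond X} (h : p ∈ AS I φ ψ) :
    p ∈ AS I (fun x => flS x (φ x)) (fun x => flS x (ψ x)) := by
  have := cov_flip hI h
  simp only [flS_fand, flS_fnot] at this
  exact this

theorem AS_flipN (hI : Ideal' I) {A B : SetName (Cond X) X} {p : Cond X}
    (h : p ∈ AS I (Mem A) (Mem B)) : p ∈ AS I (Mem (flN A)) (Mem (flN B)) := by
  have h1 : Mem (flN A) = fun x => flS x (Mem A x) := funext fun x => mem_flN A x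
  have h2 : Mem (flN B) = fun x => flS x (Mem B x) := funext fun x => mem_flN B x
  rw [h1, h2]
  exact AS_flip hI h

/-! ### The automorphism -/

/-- the automorphism -/
def TT (X : Type) : RelName (Cond X) X := fun A B => {_p | B = flN A}

theorem same_refl {P : Type} [Preorder P] (A : SetName P X) (p : P) : p ∈ Same A A :=
  fun _ => ⟨mem_fimp.2 fun q _ h => ⟨q, le_rfl, h⟩, mem_fimp.2 fun q _ h => ⟨q, le_rfl, h⟩⟩

theorem down_Same {P : Type} [Preorder P] (A B : SetName P X) : Down (Same A B) :=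
  down_fall fun _ => down_fiff _ _

theorem down_Rel {P : Type} [Preorder P] (T : RelName P X) (A B : SetName P X) :
    Down (Rel T A B) := down_fex _

theorem rel_of_mem {P : Type} [Preorder P] {T : RelName P X} {A B : SetName P X} {p : P}
    (h : p ∈ T A B) : p ∈ Rel T A B :=
  mem_fex_of_mem A (down_fex _) (mem_fex_of_mem B
    (down_fand (down_meets _) (down_fand (down_Same _ _) (down_Same _ _)))
    ⟨meets_of_mem h, same_refl _ _, same_refl _ _⟩)

theorem rel_TT (A : SetName (Cond X) X) (p : Cond X) : p ∈ Rel (TT X) A (flN A) :=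
  rel_of_mem (T := TT X) rfl

theorem TT_spec {A B : SetName (Cond X) X} {p : Cond X} (h : p ∈ Rel (TT X) A B) :
    ∀ q ≤ p, ∃ r ≤ q, ∃ S : Set X, S.Finite ∧
      ∀ x ∉ S, r ∈ fiff (Mem B x) (Mem (flN A) x) := by
  intro q hq
  obtain ⟨r, hr, A', hA'⟩ := mem_fex.1 h q hq
  obtain ⟨s, hs, B', hB', hAA', hBB'⟩ := mem_fex.1 hA' r le_rfl
  obtain ⟨-, -, t, ht, -⟩ := hB' s le_rfl
  have ht' : B' = flN A' := ht
  subst ht'
  refine ⟨s, hs.trans hr, s.dom, s.dom_finite, fun x hx => ?_⟩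
  have h1 : s ∈ flS x (fiff (Mem A x) (Mem A' x)) := by
    change fl x s ∈ fiff (Mem A x) (Mem A' x)
    rw [fl_eq hx]; exact hAA' x
  have h1a : s ∈ fimp (flS x (Mem A x)) (flS x (Mem A' x)) := by
    rw [← flS_fimp]; exact h1.1
  have h1b : s ∈ fimp (flS x (Mem A' x)) (flS x (Mem A x)) := by
    rw [← flS_fimp]; exact h1.2
  rw [← mem_flN, ← mem_flN] at h1a h1b
  have h2 := hBB' x
  constructor
  · rw [mem_fimp]
    intro u hu hub
    obtain ⟨v, hv, hv'⟩ := mem_fimp.1 h2.1 u hu hub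
    obtain ⟨w, hw, hw'⟩ := mem_fimp.1 h1b v (hv.trans hu) hv'
    exact ⟨w, hw.trans hv, hw'⟩
  · rw [mem_fimp]
    intro u hu hub
    obtain ⟨v, hv, hv'⟩ := mem_fimp.1 h1a u hu hub
    obtain ⟨w, hw, hw'⟩ := mem_fimp.1 h2.2 v (hv.trans hu) hv'
    exact ⟨w, hw.trans hv, hw'⟩

theorem TT_AS (hI : Ideal' I) {A B : SetName (Cond X) X} {p : Cond X}
    (h : p ∈ Rel (TT X) A B) :
    p ∈ AS I (Mem B) (Mem (flN A)) ∧ p ∈ AS I (Mem (flN A)) (Mem B) := by
  constructor
  · intro q hq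
    obtain ⟨r, hr, S, hS, hS'⟩ := TT_spec h q hq
    exact ⟨r, hr, S, hI.fin _ hS, fun x hx => (hS' x hx).1⟩
  · intro q hq
    obtain ⟨r, hr, S, hS, hS'⟩ := TT_spec h q hq
    exact ⟨r, hr, S, hI.fin _ hS, fun x hx => (hS' x hx).2⟩

theorem isAut_TT (hI : Ideal' I) {Sm : (X → Set (Cond X)) → Set (Cond X)}
    (hSm : ∀ φ, Sm φ = Cov I φ) (p : Cond X) : p ∈ IsAut Sm (TT X) := by
  have hAS : ∀ φ ψ, AlmostSub Sm φ ψ = AS I φ ψ := fun φ ψ => hSm _
  refine ⟨⟨fun A => mem_fex_of_mem (flN A) (down_Rel _ _ _) (rel_TT A p),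
    fun B => mem_fex_of_mem (flN B) (down_Rel _ _ _) ?_⟩, fun A A' B B' => ?_⟩
  · have := rel_TT (flN B) p
    rwa [flN_flN] at this
  · rw [mem_fimp]
    rintro q - ⟨h1, h2⟩
    refine ⟨q, le_rfl, ?_⟩
    rw [hAS, hAS]
    obtain ⟨h1a, h1b⟩ := TT_AS hI h1
    obtain ⟨h2a, h2b⟩ := TT_AS hI h2
    constructor
    · rw [mem_fimp]
      intro r hr hr'
      refine ⟨r, le_rfl, ?_⟩
      exact AS_trans hI (AS_trans hI (down_AS _ _ _ h1a _ hr) (AS_flipN hI hr'))
        (down_AS _ _ _ h2b _ hr)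
    · rw [mem_fimp]
      intro r hr hr'
      refine ⟨r, le_rfl, ?_⟩
      have h3 : r ∈ AS I (Mem (flN A)) (Mem (flN A')) :=
        AS_trans hI (AS_trans hI (down_AS _ _ _ h1b _ hr) hr') (down_AS _ _ _ h2a _ hr)
      have h4 := AS_flipN hI h3
      rwa [flN_flN, flN_flN] at h4

end Pool.Agent.W917.Flip
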