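import Mathlib
import Pool.Agent.W917.Flip.Cover

/-!
# Small sets of the extension by Cohen reals
-/

namespace Pool.Agent.W917.Flip

open Cardinal Set Pool.Agent.H65R3.Forc
open Pool.Agent.H631R2 (Cond)

variable {X Z : Type}

theorem down_InjInto {P : Type} [Preorder P] (Y : Type) (φ : X → Set P) : Down (InjInto Y φ) :=
  down_fex _

theorem inj_of_cov {I : Set Z → Prop} {Y : Type} {φ : Z → Set (Cond X)} {p : Cond X}
    (hI : ∀ S, I S → ∃ f : S → Y, Function.Injective f) (h : p ∈ Cov I φ) : p ∈ InjInto Y φ := by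
  apply mem_fex.2
  intro q hq
  obtain ⟨r, hr, S, hS, hrS⟩ := h q hq
  obtain ⟨f, hf⟩ := hI S hS
  let R : Z → Y → Set (Cond X) := fun x y => {_q | ∃ h : x ∈ S, f ⟨x, h⟩ = y}
  have hRm : ∀ x y q, q ∈ meets (R x y) → ∃ h : x ∈ S, f ⟨x, h⟩ = y := by
    intro x y q hq
    obtain ⟨r, _, s, hs, _⟩ := hq q le_rfl
    exact hs
  refine ⟨r, hr, R, fun x => ?_, fun x x' y => ?_⟩
  · rw [mem_fimp]
    intro s hs hsx
    have hx : x ∈ S := by
      by_contra hx
      exact hrS x hx s hs hsx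
    exact ⟨s, le_rfl, mem_fex_of_mem (f ⟨x, hx⟩) (down_meets _) (meets_of_mem ⟨hx, rfl⟩)⟩
  · rw [mem_fimp]
    rintro s hs ⟨h1, h2⟩
    obtain ⟨hx, hxy⟩ := hRm _ _ _ h1
    obtain ⟨hx', hxy'⟩ := hRm _ _ _ h2
    refine ⟨s, le_rfl, ?_⟩
    exact congrArg Subtype.val (hf (hxy.trans hxy'.symm))

theorem compat_of_delta {E : Type} {T : Set E} {r : Cond X} {q : E → Cond X}
    (hr : ∀ e ∈ T, q e ≤ r)
    (hd : ∀ e ∈ T, ∀ e' ∈ T, e ≠ e' → (q e).dom ∩ (q e').dom = r.dom) {e e' : E} (he : e ∈ T)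
    (he' : e' ∈ T) (hne : e ≠ e') : ∃ u, u ≤ q e ∧ u ≤ q e' :=
  Cond.exists_lb (Cond.agree_of_root (hr e he) (hr e' he') (hd e he e' he' hne).subset)

theorem cov_of_inj {Y : Type} (hY : ℵ₀ ≤ #Y) {φ : Z → Set (Cond X)} {p : Cond X}
    (h : p ∈ InjInto Y φ) : p ∈ Cov (fun S => #S ≤ #Y) φ := by
  intro q hq
  obtain ⟨r, hr, R, hR1, hR2⟩ := mem_fex.1 h q hq
  refine ⟨r, hr, {x | ∃ r' ≤ r, r' ∈ φ x}, ?_, fun x hx s hs hs' => hx ⟨s, hs, hs'⟩⟩
  have key : ∀ x : Z, ∃ q' : Cond X, ∃ y : Y, (∃ r' ≤ r, r' ∈ φ x) →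
      q' ≤ r ∧ q' ∈ meets (R x y) := by
    intro x
    by_cases hx : ∃ r' ≤ r, r' ∈ φ x
    · obtain ⟨r', hr', hr''⟩ := hx
      obtain ⟨u, hu, hu'⟩ := mem_fimp.1 (hR1 x) r' hr' hr''
      obtain ⟨v, hv, y, hy⟩ := mem_fex.1 hu' u le_rfl
      exact ⟨v, y, fun _ => ⟨hv.trans (hu.trans hr'), hy⟩⟩
    · have : Nonempty Y := by
        rw [← mk_ne_zero_iff]
        intro h0
        rw [h0] at hY
        exact absurd hY (not_le.2 aleph0_pos)
      exact ⟨r, Classical.arbitrary Y, fun h => absurd h hx⟩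
  choose q' y hq' using key
  by_contra hcon
  obtain ⟨T, r0, hT, hTc, hr0, hd⟩ := Cond.delta hY {x | ∃ r' ≤ r, r' ∈ φ x} hcon q'
  have hni : ¬ Function.Injective (fun x : T => y x.1) := fun hinj =>
    hTc (mk_le_of_injective hinj)
  rw [Function.not_injective_iff] at hni
  obtain ⟨⟨x, hx⟩, ⟨x', hx'⟩, hxy, hne⟩ := hni
  have hne' : x ≠ x' := fun h => hne (Subtype.ext h)
  have hxy' : y x = y x' := hxy
  obtain ⟨u, hu, hu'⟩ := compat_of_delta hr0 hd hx hx' hne'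
  have h1 := hq' x (hT hx)
  have h2 := hq' x' (hT hx')
  obtain ⟨v, -, hv⟩ := mem_fimp.1 (hR2 x x' (y x)) u (hu.trans h1.1)
    ⟨down_meets _ _ h1.2 _ hu, by rw [hxy']; exact down_meets _ _ h2.2 _ hu'⟩
  exact hne' hv

theorem cov_fin_of_inj {Y : Type} [Finite Y] {φ : Z → Set (Cond X)} {p : Cond X}
    (h : p ∈ InjInto Y φ) : p ∈ Cov Set.Finite φ := by
  classical
  intro q hq
  obtain ⟨r, hr, R, hR1, hR2⟩ := mem_fex.1 h q hq
  by_contra hcon
  push Not at hcon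
  have key : ∀ m : ℕ, ∃ r' ≤ r, ∃ T : Finset Z, T.card = m ∧
      ∀ x ∈ T, ∃ y : Y, r' ∈ meets (R x y) := by
    intro m
    induction m with
    | zero => exact ⟨r, le_rfl, ∅, rfl, fun x hx => absurd hx (Finset.notMem_empty x)⟩
    | succ m ih =>
      obtain ⟨r', hr', T, hT, hT'⟩ := ih
      obtain ⟨x, hx, hx'⟩ := hcon r' (hr'.trans hr) (T : Set Z) T.finite_toSet
      have hx2 : ∃ s ≤ r', s ∈ φ x := by
        by_contra h'
        push Not at h'
        exact hx' fun s hs => h' s hs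
      obtain ⟨s, hs, hs'⟩ := hx2
      obtain ⟨u, hu, hu'⟩ := mem_fimp.1 (hR1 x) s (hs.trans hr') hs'
      obtain ⟨v, hv, y, hy⟩ := mem_fex.1 hu' u le_rfl
      have hvr' : v ≤ r' := hv.trans (hu.trans hs)
      refine ⟨v, hvr'.trans hr', insert x T, ?_, fun z hz => ?_⟩
      · rw [Finset.card_insert_of_notMem (by simpa using hx), hT]
      · rcases Finset.mem_insert.1 hz with rfl | hz
        · exact ⟨y, hy⟩
        · obtain ⟨y', hy'⟩ := hT' z hz
          exact ⟨y', down_meets _ _ hy' _ hvr'⟩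
  have := Fintype.ofFinite Y
  obtain ⟨r', hr', T, hT, hT'⟩ := key (Fintype.card Y + 1)
  have : Nonempty Y := by
    have : T.Nonempty := by rw [← Finset.card_pos]; omega
    obtain ⟨x, hx⟩ := this
    obtain ⟨y, -⟩ := hT' x hx
    exact ⟨y⟩
  have hch : ∀ x : Z, ∃ y : Y, x ∈ T → r' ∈ meets (R x y) := by
    intro x
    by_cases hx : x ∈ T
    · obtain ⟨y, hy⟩ := hT' x hx
      exact ⟨y, fun _ => hy⟩
    · exact ⟨Classical.arbitrary Y, fun h => absurd h hx⟩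
  choose y hy using hch
  obtain ⟨x, hx, x', hx', hne, hxy⟩ := Finset.exists_ne_map_eq_of_card_lt_of_maps_to
    (s := T) (t := Finset.univ) (f := y) (by rw [Finset.card_univ]; omega)
    (fun _ _ => Finset.mem_coe.2 (Finset.mem_univ _))
  obtain ⟨v, -, hv⟩ := mem_fimp.1 (hR2 x x' (y x)) r' hr'
    ⟨hy x hx, by rw [hxy]; exact hy x' hx'⟩
  exact hne hv

theorem ideal_fin : Ideal' (Set.Finite : Set X → Prop) :=
  ⟨fun _ _ h h' => h.subset h', fun _ _ h h' => h.union h', fun _ h => h⟩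

theorem ideal_card {χ : Cardinal.{0}} (hχ : ℵ₀ ≤ χ) : Ideal' (fun S : Set X => #S ≤ χ) :=
  ⟨fun _ _ h h' => (mk_le_mk_of_subset h').trans h,
    fun S T h h' => (mk_union_le S T).trans (by
      calc #S + #T ≤ χ + χ := add_le_add h h'
        _ = χ := add_eq_self hχ),
    fun _ h => (h.lt_aleph0.le).trans hχ⟩

theorem finSet_eq (φ : Z → Set (Cond X)) : FinSet φ = Cov Set.Finite φ := by
  ext p
  constructor
  · intro h q hq
    obtain ⟨r, hr, n, hn⟩ := mem_fex.1 h q hq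
    obtain ⟨s, hs, S, hS⟩ := cov_fin_of_inj hn r le_rfl
    exact ⟨s, hs.trans hr, S, hS⟩
  · intro h
    apply mem_fex.2
    intro q hq
    obtain ⟨r, hr, S, hS, hrS⟩ := h q hq
    have := hS.fintype
    refine ⟨r, hr, Fintype.card S, ?_⟩
    refine inj_of_cov (I := fun S' => S' = S) ?_ (fun s hs => ⟨s, le_rfl, S, rfl,
      fun x hx => down_fnot _ _ (hrS x hx) _ hs⟩)
    rintro S' rfl
    exact ⟨Fintype.equivFin _, (Fintype.equivFin _).injective⟩

theorem injInto_eq {Y : Type} (hY : ℵ₀ ≤ #Y) (φ : Z → Set (Cond X)) :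
    InjInto Y φ = Cov (fun S => #S ≤ #Y) φ := by
  ext p
  constructor
  · exact cov_of_inj hY
  · intro h
    refine inj_of_cov (fun S hS => ?_) h
    obtain ⟨f⟩ := (Cardinal.le_def _ _).1 hS
    exact ⟨f, f.injective⟩

theorem ctblSet_eq (φ : Z → Set (Cond X)) : CtblSet φ = Cov (fun S => #S ≤ ℵ₀) φ := by
  have := injInto_eq (Y := ℕ) (by simp) φ
  rw [CtblSet, this, mk_nat]

theorem mk_K (κ : Cardinal.{0}) : #(K κ) = κ := by simp [K]

/-- the ground model set `Z` is not covered by small sets -/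
theorem not_cov_true {I : Set Z → Prop} (hI : ¬ I Set.univ) (p : Cond X) :
    p ∈ fnot (Cov I fun _ : Z => fground True) := by
  intro q _ hq
  obtain ⟨r, _, S, hS, hrS⟩ := hq q le_rfl
  have : S = Set.univ := by
    rw [Set.eq_univ_iff_forall]
    intro x
    by_contra hx
    exact hrS x hx r le_rfl trivial
  exact hI (this ▸ hS)

theorem mk_lt_K {κ : Cardinal.{0}} (a : K κ) : #{y : K κ // y < a} < κ :=
  Cardinal.mk_Iio_toType_ord_lt a

theorem staysCardinal {κ : Cardinal.{0}} (hκ : ℵ₀ ≤ κ) (p : Cond X) :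
    p ∈ StaysCardinal (Cond X) κ := by
  intro a q hq hq'
  rcases le_or_gt ℵ₀ #{y : K κ // y < a} with h | h
  · have h1 := cov_of_inj h hq'
    refine not_cov_true (I := fun S : Set (K κ) => #S ≤ #{y : K κ // y < a}) ?_ q q le_rfl h1
    rw [mk_univ, mk_K]
    exact not_le.2 (mk_lt_K a)
  · have : Finite {y : K κ // y < a} := Cardinal.lt_aleph0_iff_finite.1 h
    have h1 := cov_fin_of_inj hq'
    refine not_cov_true ?_ q q le_rfl h1
    intro h2
    have h3 : Infinite (K κ) := by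
      rw [Cardinal.infinite_iff, mk_K]; exact hκ
    exact Set.infinite_univ h2

theorem not_inj {Y : Type} (hY : ℵ₀ ≤ #Y) (hZ : #Y < #Z) (p : Cond X) :
    p ∈ fnot (InjInto Y fun _ : Z => fground True) := by
  rw [injInto_eq hY]
  apply not_cov_true
  rw [mk_univ]
  exact not_le.2 hZ

end Pool.Agent.W917.Flip
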