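import Mathlib
import Pool.Agent.W917.Flip.Size

/-!
# Finite sets: the automorphism is not trivial on any cocountable set
-/

namespace Pool.Agent.W917.Flip

open Cardinal Set Pool.Agent.H65R3.Forc
open Pool.Agent.H631R2 (Cond)

variable {X : Type}

theorem reg_Cov {Z : Type} {I : Set Z → Prop} {φ : Z → Set (Cond X)} {p : Cond X}
    (h : ∀ q ≤ p, ∃ r ≤ q, r ∈ Cov I φ) : p ∈ Cov I φ := by
  intro q hq
  obtain ⟨r, hr, hr'⟩ := h q hq
  obtain ⟨s, hs, S, hS⟩ := hr' r le_rfl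
  exact ⟨s, hs.trans hr, S, hS⟩

/-- name of a ground model set -/
def chk (B : Set X) : SetName (Cond X) X := fun x => {_p | x ∈ B}

theorem flN_chk (B : Set X) : flN (chk B) = chk B := rfl

theorem mem_chk {B : Set X} {x : X} {p : Cond X} : p ∈ Mem (chk B) x ↔ x ∈ B := by
  constructor
  · intro h
    obtain ⟨_, _, _, hs, _⟩ := h p le_rfl
    exact hs
  · intro h
    exact meets_of_mem h

/-- name of the set of the elements of `W` with bit `b` -/
def bits (W : Set X) (b : Bool) : SetName (Cond X) X := fun x => {p | x ∈ W ∧ (x, b) ∈ p.s}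

theorem flN_bits (W : Set X) (b : Bool) : flN (bits W b) = bits W (!b) := by
  funext x
  ext p
  change (x ∈ W ∧ (x, b) ∈ (fl x p).s) ↔ _
  rw [mem_fl, fpt_self]
  rfl

theorem mem_bits {W : Set X} {b : Bool} {x : X} {p : Cond X} (h : p ∈ Mem (bits W b) x) :
    ∃ q ≤ p, x ∈ W ∧ (x, b) ∈ q.s := by
  obtain ⟨q, hq, s, hs, hqs⟩ := h p le_rfl
  exact ⟨q, hq, hs.1, hqs hs.2⟩

/-- the exceptional indices -/
def bad (Z : Set X) (q : X → Cond X) (s : Cond X) : Set X := {x ∈ Z | ¬ ∃ u, u ≤ s ∧ u ≤ q x}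

theorem bad_finite {Z : Set X} {r : Cond X} {q : X → Cond X} (hr : ∀ e ∈ Z, q e ≤ r)
    (hd : ∀ e ∈ Z, ∀ e' ∈ Z, e ≠ e' → (q e).dom ∩ (q e').dom = r.dom) {s : Cond X} (hs : s ≤ r) :
    (bad Z q s).Finite := by
  have h1 : bad Z q s ⊆ ⋃ i ∈ s.dom \ r.dom, {x ∈ Z | i ∈ (q x).dom} := by
    intro x hx
    have h2 : ¬ (s.dom ∩ (q x).dom ⊆ r.dom) := fun h2 =>
      hx.2 (Cond.exists_lb (Cond.agree_of_root hs (hr x hx.1) h2))
    rw [Set.not_subset] at h2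
    obtain ⟨i, hi, hi'⟩ := h2
    exact mem_biUnion (show i ∈ s.dom \ r.dom from ⟨hi.1, hi'⟩) ⟨hx.1, hi.2⟩
  refine Set.Finite.subset (Set.Finite.biUnion (s.dom_finite.subset sdiff_subset) ?_) h1
  intro i hi
  refine Set.Subsingleton.finite ?_
  rintro x ⟨hx, hx'⟩ y ⟨hy, hy'⟩
  by_contra hne
  have h3 : i ∈ r.dom := by
    rw [← hd x hx y hy hne]; exact ⟨hx', hy'⟩
  exact hi.2 h3

theorem root_le {Z : Set X} {r : Cond X} {q : X → Cond X} (hr : ∀ e ∈ Z, q e ≤ r)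
    (hd : ∀ e ∈ Z, ∀ e' ∈ Z, e ≠ e' → (q e).dom ∩ (q e').dom = r.dom) {e e' : X} (he : e ∈ Z)
    (he' : e' ∈ Z) (hne : e ≠ e') {s : Cond X} (hs : ∀ e ∈ Z, q e ≤ s) : r ≤ s := by
  rintro ⟨i, b⟩ hib
  have h1 : i ∈ r.dom := by
    rw [← hd e he e' he' hne]
    exact ⟨Cond.mem_dom.2 ⟨b, hs e he hib⟩, Cond.mem_dom.2 ⟨b, hs e' he' hib⟩⟩
  obtain ⟨c, hc⟩ := Cond.mem_dom.1 h1
  have h2 := Cond.unique (hs e he hib) (hr e he hc)
  rw [h2]; exact hc

/-- free sets -/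
theorem exists_max_free (Z : Set X) (y : X → X) (hy : ∀ x ∈ Z, y x ≠ x) :
    ∃ B ⊆ Z, (∀ x ∈ B, ∀ x' ∈ B, y x ≠ x') ∧ Z ⊆ B ∪ y '' B ∪ ⋃ a ∈ B, {x ∈ Z | y x = a} := by
  obtain ⟨B, hB⟩ := zorn_subset {B : Set X | B ⊆ Z ∧ ∀ x ∈ B, ∀ x' ∈ B, y x ≠ x'} (by
    intro c hc hch
    refine ⟨⋃₀ c, ⟨Set.sUnion_subset fun b hb => (hc hb).1, ?_⟩,
      fun s hs => Set.subset_sUnion_of_mem hs⟩
    rintro x ⟨b, hb, hxb⟩ x' ⟨b', hb', hxb'⟩
    rcases hch.total hb hb' with h | h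
    · exact (hc hb').2 x (h hxb) x' hxb'
    · exact (hc hb).2 x hxb x' (h hxb'))
  refine ⟨B, hB.prop.1, hB.prop.2, fun x hx => ?_⟩
  by_contra hcon
  simp only [mem_union, not_or, mem_iUnion, not_exists] at hcon
  obtain ⟨⟨h1, h2⟩, h3⟩ := hcon
  have h4 : insert x B ∈ {B : Set X | B ⊆ Z ∧ ∀ x ∈ B, ∀ x' ∈ B, y x ≠ x'} := by
    refine ⟨Set.insert_subset hx hB.prop.1, ?_⟩
    rintro z (rfl | hz) w (rfl | hw)
    · exact hy _ hx
    · intro h
      exact h3 w hw ⟨hx, h⟩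
    · intro h
      exact h2 ⟨z, hz, h⟩
    · exact hB.prop.2 z hz w hw
  exact h1 (hB.le_of_ge h4 (Set.subset_insert x B) (Set.mem_insert x B))

theorem two_mem {χ : Cardinal.{0}} (hχ : ℵ₀ ≤ χ) {T : Set X} (hT : ¬ #T ≤ χ) :
    ∃ e ∈ T, ∃ e' ∈ T, e ≠ e' := by
  have h1 : 1 < #T := (Cardinal.one_lt_aleph0.trans_le hχ).trans (not_le.mp hT)
  obtain ⟨⟨e, he⟩, ⟨e', he'⟩, hne⟩ := Cardinal.one_lt_iff_nontrivial.mp h1
  exact ⟨e, he, e', he', fun h => hne (Subtype.ext h)⟩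

theorem reg_mem {P : Type} [Preorder P] {D : SetName P X} {x : X} {p : P}
    (h : p ∈ fnot (fnot (Mem D x))) : p ∈ Mem D x := by
  apply reg_meets
  intro q hq
  have := h q hq
  rw [mem_fnot] at this
  push Not at this
  exact this

theorem fin_nontrivial (hX : ¬ #X ≤ ℵ₀) (p : Cond X) :
    p ∈ fall fun D : SetName (Cond X) X =>
      fimp (CtblSet fun x => fnot (Mem D x)) (fnot (IsTrivialOn (TT X) D)) := by
  intro D
  rw [mem_fimp]
  intro q _ hqD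
  refine ⟨q, le_rfl, ?_⟩
  intro r hr hrT
  rw [ctblSet_eq] at hqD
  obtain ⟨r1, hr1, S0, hS0, hrS0⟩ := hqD r hr
  obtain ⟨r2, hr2, E, ⟨hE1, hE1'⟩, hE2⟩ := mem_fex.1 hrT r1 hr1
  have hD : ∀ x ∉ S0, r2 ∈ Mem D x := fun x hx => down_meets _ _ (reg_mem (hrS0 x hx)) _ hr2
  have useE : ∀ B : SetName (Cond X) X, (∀ x, x ∈ S0 → B x = ∅) →
      r2 ∈ AS Set.Finite (Mem (flN B)) (Img E B) ∧
      r2 ∈ AS Set.Finite (Img E B) (Mem (flN B)) := by
    intro B hB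
    have h1 : ∀ q ≤ r2, ∃ r ≤ q, r ∈ AS Set.Finite (Mem (flN B)) (Img E B) ∧
        r ∈ AS Set.Finite (Img E B) (Mem (flN B)) := by
      intro q hq
      obtain ⟨r, hr, hr'⟩ := mem_fimp.1 (hE2 B (flN B)) q hq ⟨fun x => by
        rw [mem_fimp]
        intro s hs hs'
        by_cases hx : x ∈ S0
        · obtain ⟨_, _, t, ht, _⟩ := hs' s le_rfl
          rw [hB x hx] at ht
          exact absurd ht (Set.notMem_empty t)
        · exact ⟨s, le_rfl, down_meets _ _ (hD x hx) _ (hs.trans hq)⟩, rel_TT B q⟩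
      refine ⟨r, hr, ?_⟩
      rw [AlmostSub, AlmostSub, finSet_eq, finSet_eq] at hr'
      exact hr'
    constructor
    · exact reg_Cov fun q hq => by
        obtain ⟨r, hr, h, _⟩ := h1 q hq
        exact ⟨r, hr, h⟩
    · exact reg_Cov fun q hq => by
        obtain ⟨r, hr, _, h⟩ := h1 q hq
        exact ⟨r, hr, h⟩
  have uniq : ∀ {s : Cond X} {x y y' : X}, s ≤ r2 → s ∈ meets (E x y) → s ∈ meets (E x y') →
      y = y' := by
    intro s x y y' hs h1 h2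
    obtain ⟨t, _, ht⟩ := mem_fimp.1 (hE1' x y y') s hs ⟨h1, h2⟩
    exact ht
  -- the fibres are finite
  have hfib : ∀ a : X, r2 ∈ Cov Set.Finite (Mem fun x => {p | x ∉ S0 ∧ p ∈ meets (E x a)}) := by
    intro a
    let A : SetName (Cond X) X := fun x => {p | x ∉ S0 ∧ p ∈ meets (E x a)}
    have h1 := (useE A (fun x hx => by
      ext t
      constructor
      · intro ht
        exact absurd hx ht.1
      · intro ht
        exact absurd ht (Set.notMem_empty t))).1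
    have h2 : r2 ∈ Cov Set.Finite (Img E A) := by
      intro q hq
      refine ⟨q, le_rfl, {a}, Set.finite_singleton a, fun y hy s hs hs' => ?_⟩
      obtain ⟨t, ht, x, hx1, hx2⟩ := mem_fex.1 hs' s le_rfl
      obtain ⟨u, hu, v, hv, huv⟩ := hx2 t le_rfl
      have h3 : u ∈ meets (E x a) := down_meets _ _ hv.2 _ huv
      exact hy (uniq (hu.trans (ht.trans (hs.trans hq))) (down_meets _ _ hx1 _ hu) h3)
    have h3 := cov_flip ideal_fin (AS_cov ideal_fin h1 h2)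
    have h4 : (fun x => flS x (Mem (flN A) x)) = Mem A := by
      funext x
      rw [← mem_flN, flN_flN]
    rw [h4] at h3
    exact h3
  -- no fixed points
  have h1 := (useE (bits S0ᶜ true) (fun x hx => by
      ext t
      constructor
      · intro ht
        exact absurd hx ht.1
      · intro ht
        exact absurd ht (Set.notMem_empty t))).2
  rw [flN_bits] at h1
  obtain ⟨r3, hr3, S1, hS1, hrS1⟩ := h1 r2 le_rfl
  have key : ∀ x : X, ∃ q' : Cond X, ∃ y : X, x ∈ (S0 ∪ (S1 ∪ r3.dom))ᶜ →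
      q' ≤ r3 ∧ q' ∈ meets (E x y) ∧ y ≠ x := by
    intro x
    by_cases hx : x ∈ (S0 ∪ (S1 ∪ r3.dom))ᶜ
    · simp only [mem_compl_iff, mem_union, not_or] at hx
      obtain ⟨hx0, hx1, hx2⟩ := hx
      obtain ⟨px, hpx, hpx', -⟩ := Cond.exists_ext r3 hx2 true
      obtain ⟨s, hs, hs'⟩ := mem_fimp.1 (hE1 x) px (hpx.trans hr3)
        (down_meets _ _ (hD x hx0) _ (hpx.trans hr3))
      obtain ⟨t, ht, y, hy⟩ := mem_fex.1 hs' s le_rfl
      refine ⟨t, y, fun _ => ⟨ht.trans (hs.trans hpx), hy, ?_⟩⟩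
      rintro rfl
      have htrue : (y, true) ∈ t.s := ht (hs hpx')
      have h5 : t ∈ Img E (bits S0ᶜ true) y :=
        mem_fex_of_mem y (down_fand (down_meets _) (down_meets _))
          ⟨hy, meets_of_mem ⟨hx0, htrue⟩⟩
      have h6 := hrS1 y hx1 t (ht.trans (hs.trans hpx))
      have h7 : t ∉ fnot (Mem (bits S0ᶜ (!true)) y) := fun h7 => h6 ⟨h5, h7⟩
      rw [mem_fnot] at h7
      push Not at h7
      obtain ⟨v, hv, hv'⟩ := h7
      obtain ⟨w, hw, -, hw'⟩ := mem_bits hv'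
      exact w.fn y (hw (hv htrue)) hw'
    · exact ⟨r3, x, fun h => absurd h hx⟩
  choose q y hq using key
  have hZ : ¬ #((S0 ∪ (S1 ∪ r3.dom))ᶜ : Set X) ≤ ℵ₀ := by
    intro hZ
    apply hX
    have h5 : #(S0 ∪ (S1 ∪ r3.dom) : Set X) ≤ ℵ₀ :=
      (ideal_card le_rfl).union _ _ hS0 ((ideal_card le_rfl).fin _ (hS1.union r3.dom_finite))
    have h6 := (ideal_card (X := X) le_rfl).union _ _ h5 hZ
    rwa [Set.union_compl_self, mk_univ] at h6
  obtain ⟨Z, r4, hZs, hZc, hr4, hd⟩ := Cond.delta le_rfl _ hZ q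
  obtain ⟨e, he, e', he', hne⟩ := two_mem le_rfl hZc
  have hr43 : r4 ≤ r3 := root_le hr4 hd he he' hne fun x hx => (hq x (hZs hx)).1
  have hr42 : r4 ≤ r2 := hr43.trans hr3
  have hyfib : ∀ a, {x ∈ Z | y x = a}.Finite := by
    intro a
    obtain ⟨s, hs, S, hS, hsS⟩ := hfib a r4 hr42
    refine (hS.union (bad_finite hr4 hd hs)).subset ?_
    rintro x ⟨hx, hxa⟩
    by_contra hcon
    simp only [mem_union, not_or] at hcon
    obtain ⟨hxS, hxb⟩ := hcon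
    have hcomp : ∃ u, u ≤ s ∧ u ≤ q x := by
      by_contra h'
      exact hxb ⟨hx, h'⟩
    obtain ⟨u, hus, huq⟩ := hcomp
    refine hsS x hxS u hus (meets_of_mem ⟨fun h' => hZs hx (Or.inl h'), ?_⟩)
    rw [← hxa]
    exact down_meets _ _ (hq x (hZs hx)).2.1 _ huq
  obtain ⟨B, hBZ, hfree, hmax⟩ := exists_max_free Z y fun x hx => (hq x (hZs hx)).2.2
  have hBinf : B.Infinite := by
    intro hBf
    apply hZc
    have hZfin : Z.Finite := by
      refine Set.Finite.subset ?_ hmax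
      exact (hBf.union (hBf.image y)).union (hBf.biUnion fun a _ => hyfib a)
    exact hZfin.lt_aleph0.le
  have h2 := (useE (chk B) (fun x hx => by
      ext t
      constructor
      · intro ht
        exact absurd (Or.inl hx) (hZs (hBZ ht))
      · intro ht
        exact absurd ht (Set.notMem_empty t))).2
  rw [flN_chk] at h2
  obtain ⟨r5, hr5, S2, hS2, hrS2⟩ := h2 r4 hr42
  have hexc : (bad Z q r5 ∪ ⋃ a ∈ S2, {x ∈ Z | y x = a}).Finite :=
    (bad_finite hr4 hd hr5).union (hS2.biUnion fun a _ => hyfib a)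
  obtain ⟨x, hxB, hxe⟩ := hBinf.exists_notMem_finite hexc
  simp only [mem_union, not_or, mem_iUnion, not_exists] at hxe
  obtain ⟨hxb, hxS⟩ := hxe
  have hcomp : ∃ u, u ≤ r5 ∧ u ≤ q x := by
    by_contra h'
    exact hxb ⟨hBZ hxB, h'⟩
  obtain ⟨u, hu5, huq⟩ := hcomp
  have hyS : y x ∉ S2 := fun h' => hxS (y x) h' ⟨hBZ hxB, rfl⟩
  have h6 := hrS2 (y x) hyS u hu5
  have h5 : u ∈ Img E (chk B) (y x) :=
    mem_fex_of_mem x (down_fand (down_meets _) (down_meets _))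
      ⟨down_meets _ _ (hq x (hZs (hBZ hxB))).2.1 _ huq, mem_chk.2 hxB⟩
  have h7 : u ∉ fnot (Mem (chk B) (y x)) := fun h7 => h6 ⟨h5, h7⟩
  rw [mem_fnot] at h7
  push Not at h7
  obtain ⟨v, hv, hv'⟩ := h7
  exact hfree x hxB _ (mem_chk.1 hv') rfl

end Pool.Agent.W917.Flip
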