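import Mathlib
import Pool.Agent.W917.Flip.FinCase

/-!
# Sets of size at most `χ`: the automorphism is not trivial
-/

namespace Pool.Agent.W917.Flip

open Cardinal Set Pool.Agent.H65R3.Forc
open Pool.Agent.H631R2 (Cond)

variable {X : Type}

theorem mk_biUnion_le' {χ : Cardinal.{0}} (hχ : ℵ₀ ≤ χ) {B : Set X} (F : X → Set X)
    (hB : #B ≤ χ) (h : ∀ a, #(F a) ≤ χ) : #(⋃ a ∈ B, F a : Set X) ≤ χ := by
  have h1 : #(⋃ a ∈ B, F a : Set X) ≤ #B * ⨆ a : B, #(F a.1) := mk_biUnion_le F B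
  have h2 : (⨆ a : B, #(F a.1)) ≤ χ := ciSup_le' fun a : B => h a.1
  exact (h1.trans (mul_le_mul' hB h2)).trans (mul_eq_self hχ).le

theorem card_nontrivial {χ : Cardinal.{0}} (hχ : ℵ₀ ≤ χ) (hX : ¬ #X ≤ χ)
    {Sm : (X → Set (Cond X)) → Set (Cond X)} (hSm : ∀ φ, Sm φ = Cov (fun S : Set X => #S ≤ χ) φ)
    (p : Cond X) : p ∈ fnot (IsTrivial Sm (TT X)) := by
  intro r _ hrT
  obtain ⟨r2, hr2, E, ⟨hE1, hE1'⟩, hE2⟩ := mem_fex.1 hrT r le_rfl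
  have hI := ideal_card (X := X) hχ
  have useE : ∀ A : SetName (Cond X) X,
      r2 ∈ AS (fun S : Set X => #S ≤ χ) (Mem (flN A)) (Pre E A) := by
    intro A
    refine reg_Cov fun q hq => ?_
    obtain ⟨r, hr, hr'⟩ := mem_fimp.1 (hE2 A (flN A)) q hq (rel_TT A q)
    refine ⟨r, hr, ?_⟩
    rw [AlmostSub, AlmostSub, hSm, hSm] at hr'
    exact hr'.1
  have uniq : ∀ {s : Cond X} {x y y' : X}, s ≤ r2 → s ∈ meets (E x y) → s ∈ meets (E x y') →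
      y = y' := by
    intro s x y y' hs h1 h2
    obtain ⟨t, _, ht⟩ := mem_fimp.1 (hE1' x y y') s hs ⟨h1, h2⟩
    exact ht
  -- no fixed points
  have h1 := useE (bits univ true)
  rw [flN_bits] at h1
  obtain ⟨r3, hr3, S1, hS1, hrS1⟩ := h1 r2 le_rfl
  have key : ∀ x : X, ∃ q' : Cond X, ∃ y : X, x ∈ (S1 ∪ r3.dom)ᶜ →
      q' ≤ r3 ∧ q' ∈ meets (E x y) ∧ y ≠ x := by
    intro x
    by_cases hx : x ∈ (S1 ∪ r3.dom)ᶜ
    · simp only [mem_compl_iff, mem_union, not_or] at hx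
      obtain ⟨hx1, hx2⟩ := hx
      obtain ⟨px, hpx, hpx', -⟩ := Cond.exists_ext r3 hx2 false
      obtain ⟨s, hs, hs'⟩ := mem_fimp.1 (hE1 x) px (hpx.trans hr3)
        (meets_of_mem (mem_univ _))
      obtain ⟨t, ht, y, hy⟩ := mem_fex.1 hs' s le_rfl
      refine ⟨t, y, fun _ => ⟨ht.trans (hs.trans hpx), hy, ?_⟩⟩
      rintro rfl
      have hfalse : (y, false) ∈ t.s := ht (hs hpx')
      have h5 : t ∈ Mem (bits univ false) y := meets_of_mem ⟨mem_univ _, hfalse⟩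
      have h6 := hrS1 y hx1 t (ht.trans (hs.trans hpx))
      have h7 : t ∉ fnot (Pre E (bits univ true) y) := fun h7 => h6 ⟨h5, h7⟩
      rw [mem_fnot] at h7
      push Not at h7
      obtain ⟨v, hv, hv'⟩ := h7
      obtain ⟨w, hw, z, hz1, hz2⟩ := mem_fex.1 hv' v le_rfl
      have hwr : w ≤ r2 := hw.trans (hv.trans (ht.trans (hs.trans (hpx.trans hr3))))
      have hzy : y = z := uniq hwr (down_meets _ _ hy _ (hw.trans hv)) hz1
      subst hzy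
      obtain ⟨w', hw', -, hw''⟩ := mem_bits hz2
      exact w'.fn y hw'' (hw' (hw (hv hfalse)))
    · exact ⟨r3, x, fun h => absurd h hx⟩
  choose q y hq using key
  have hZ : ¬ #((S1 ∪ r3.dom)ᶜ : Set X) ≤ χ := by
    intro hZ
    apply hX
    have h5 : #(S1 ∪ r3.dom : Set X) ≤ χ := hI.union _ _ hS1 (hI.fin _ r3.dom_finite)
    have h6 := hI.union _ _ h5 hZ
    rwa [Set.union_compl_self, mk_univ] at h6
  obtain ⟨Z, r4, hZs, hZc, hr4, hd⟩ := Cond.delta hχ _ hZ q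
  obtain ⟨e, he, e', he', hne⟩ := two_mem hχ hZc
  have hr43 : r4 ≤ r3 := root_le hr4 hd he he' hne fun x hx => (hq x (hZs hx)).1
  have hr42 : r4 ≤ r2 := hr43.trans hr3
  have hfreeset : ∃ B ⊆ Z, (¬ #B ≤ χ) ∧ ∀ x ∈ B, ∀ x' ∈ B, y x ≠ x' := by
    by_cases hfib : ∀ a, #({x ∈ Z | y x = a} : Set X) ≤ χ
    · obtain ⟨B, hBZ, hfree, hmax⟩ := exists_max_free Z y fun x hx => (hq x (hZs hx)).2.2
      refine ⟨B, hBZ, fun hB => hZc ?_, hfree⟩
      refine (mk_le_mk_of_subset hmax).trans ?_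
      refine hI.union _ _ (hI.union _ _ hB (mk_image_le.trans hB)) ?_
      exact mk_biUnion_le' hχ _ hB hfib
    · push Not at hfib
      obtain ⟨a, ha⟩ := hfib
      refine ⟨{x ∈ Z | y x = a}, fun x hx => hx.1, not_le.2 ha, ?_⟩
      rintro x ⟨hx, hxa⟩ x' ⟨hx', hxa'⟩ hxx
      exact (hq x' (hZs hx')).2.2 (hxa'.trans (hxa.symm.trans hxx))
  obtain ⟨B, hBZ, hBc, hfree⟩ := hfreeset
  have h2 := useE (chk B)
  rw [flN_chk] at h2
  obtain ⟨r5, hr5, S2, hS2, hrS2⟩ := h2 r4 hr42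
  have hex : ∃ x ∈ B, x ∉ S2 ∪ bad Z q r5 := by
    by_contra hcon
    push Not at hcon
    exact hBc ((mk_le_mk_of_subset hcon).trans
      (hI.union _ _ hS2 (hI.fin _ (bad_finite hr4 hd hr5))))
  obtain ⟨x, hxB, hxe⟩ := hex
  simp only [mem_union, not_or] at hxe
  obtain ⟨hxS, hxb⟩ := hxe
  have hcomp : ∃ u, u ≤ r5 ∧ u ≤ q x := by
    by_contra h'
    exact hxb ⟨hBZ hxB, h'⟩
  obtain ⟨u, hu5, huq⟩ := hcomp
  have h6 := hrS2 x hxS u hu5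
  have h7 : u ∉ fnot (Pre E (chk B) x) := fun h7 => h6 ⟨mem_chk.2 hxB, h7⟩
  rw [mem_fnot] at h7
  push Not at h7
  obtain ⟨v, hv, hv'⟩ := h7
  obtain ⟨w, hw, z, hz1, hz2⟩ := mem_fex.1 hv' v le_rfl
  have hwr : w ≤ r2 := hw.trans (hv.trans (hu5.trans (hr5.trans hr42)))
  have hzy : y x = z := uniq hwr
    (down_meets _ _ (hq x (hZs (hBZ hxB))).2.1 _ (hw.trans (hv.trans huq))) hz1
  exact hfree x hxB z (mem_chk.1 hz2) hzy

end Pool.Agent.W917.Flip
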